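import Pool.Agent.W495.TA.Stms
import Pool.Agent.H485R3.Exact.ExoticMain

set_option autoImplicit false

/-! Project TA, part RU: Weil numbers with equal valuations agree up to roots of unity. -/

namespace Pool.Agent.W64.TA

open NumberField Pool.Agent.W547.KB

theorem ru : Pool.Agent.W495.TA.S_ru := by
  intro p _ ν L _ _ _ _ j α β a b ha hb hα hβ hα2 hβ2 hval
  have hp : p.Prime := Fact.out
  have hppos : (0 : ℝ) < p := by exact_mod_cast hp.pos
  have hne : ∀ (x : L) (c : ℕ), (∀ ψ : L →+* ℂ, ‖ψ x‖ ^ 2 = (p : ℝ) ^ c) → x ≠ 0 := by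
    rintro x c hx rfl
    have h1 := hx j
    have h2 : (0 : ℝ) < (p : ℝ) ^ c := by positivity
    rw [map_zero, norm_zero] at h1
    rw [← h1] at h2
    norm_num at h2
  have hα0 : α ≠ 0 := hne α a hα2
  have hβ0 : β ≠ 0 := hne β b hβ2
  obtain ⟨n, hn, h⟩ := Pool.Agent.H485R3.Exact.root_of_unity (L := L) (α ^ b / β ^ a) (by
    intro l _ e
    rw [map_div₀, map_pow, map_pow, norm_div, norm_pow, norm_pow]
    by_cases hl : l = p
    · subst hl
      obtain ⟨σ, hσ⟩ := comp_surjective j (ν.toRingHom.comp e.toRingHom)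
      have hσ' : ∀ x, e x = ν.symm (j (σ x)) := by
        intro x
        have h1 : j (σ x) = ν (e x) := RingHom.congr_fun hσ x
        rw [h1, ν.symm_apply_apply]
      rw [hσ' α, hσ' β, hval σ]
      exact div_self_le_one _
    · have h1 : ‖e α‖ = 1 :=
        Pool.Agent.H485R3.Exact.norm_eq_one_of_ne p a α hα hα2 l hl e.toRingHom
      have h2 : ‖e β‖ = 1 :=
        Pool.Agent.H485R3.Exact.norm_eq_one_of_ne p b β hβ hβ2 l hl e.toRingHom
      rw [h1, h2]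
      norm_num) (by
    intro φ
    rw [map_div₀, map_pow, map_pow, norm_div, norm_pow, norm_pow]
    have hα3 : ‖φ α‖ ^ 2 = (p : ℝ) ^ a := hα2 φ.toRingHom
    have hβ3 : ‖φ β‖ ^ 2 = (p : ℝ) ^ b := hβ2 φ.toRingHom
    have h1 : (‖φ α‖ ^ b) ^ 2 = (‖φ β‖ ^ a) ^ 2 := by
      rw [← pow_mul, mul_comm b 2, pow_mul, hα3, ← pow_mul, ← pow_mul, mul_comm a 2,
        pow_mul ‖φ β‖ 2 a, hβ3, ← pow_mul, mul_comm a b]
    have h2 : ‖φ α‖ ^ b = ‖φ β‖ ^ a := by
      have h3 : 0 ≤ ‖φ α‖ ^ b := by positivity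
      have h4 : 0 ≤ ‖φ β‖ ^ a := by positivity
      exact (pow_left_inj₀ h3 h4 two_ne_zero).1 h1
    rw [h2, div_self]
    exact pow_ne_zero _ (norm_ne_zero_iff.2 ((map_ne_zero _).2 hβ0)))
  refine ⟨n, hn, ?_⟩
  rw [div_pow, ← pow_mul, ← pow_mul] at h
  exact (div_eq_one_iff_eq (pow_ne_zero _ hβ0)).1 h

end Pool.Agent.W64.TA
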